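import Mathlib
import Pool.Agent.Q233.MTraceMain

/-!
# MP_ebd556_mp, Q1: a multivariate trace inequality for positive operators

For every `n ≥ 1` (in particular every `n ≥ 3`) the constant `c = 32 n + 4`, which does not depend
on the operators or on the dimension, satisfies `L(A₁,…,Aₙ) ≥ c R(A₁,…,Aₙ)` for all positive
semidefinite complex `d × d` matrices.
-/

namespace Pool.Agent.Results.MP_ebd556_mp.MultivariateTrace

open Matrix
open scoped MatrixOrder ComplexOrder

/-- The trace norm `‖X‖₁ = Tr √(Xᴴ X)` of a complex `d × d` matrix; `CFC.sqrt` is the positive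
semidefinite square root. -/
noncomputable def traceNorm {d : ℕ} (X : Matrix (Fin d) (Fin d) ℂ) : ℝ :=
  (Matrix.trace (CFC.sqrt (Xᴴ * X))).re

/-- `L(A₁,…,Aₙ) = Tr √(∑ⱼ Aⱼ²) - ∑ⱼ Tr Aⱼ`. -/
noncomputable def L {n d : ℕ} (A : Fin n → Matrix (Fin d) (Fin d) ℂ) : ℝ :=
  (Matrix.trace (CFC.sqrt (∑ j, A j ^ 2))).re - ∑ j, (Matrix.trace (A j)).re

/-- `R(A₁,…,Aₙ) = ∑_{j<k} (‖Aⱼ - Aₖ‖₁ - Tr (Aⱼ + Aₖ))`. -/
noncomputable def R {n d : ℕ} (A : Fin n → Matrix (Fin d) (Fin d) ℂ) : ℝ :=
  ∑ p : Fin n × Fin n with p.1 < p.2,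
    (traceNorm (A p.1 - A p.2) - (Matrix.trace (A p.1 + A p.2)).re)

open Q233.MatFC Q233.MTrace in
/-- The inequality `L ≥ c R` with `c = 32 n + 4`. -/
theorem result (n : ℕ) (hn : 1 ≤ n) :
    ∃ c : ℝ, 0 < c ∧ c = 32 * n + 4 ∧
      ∀ (d : ℕ) (A : Fin n → Matrix (Fin d) (Fin d) ℂ), (∀ j, (A j).PosSemidef) →
        L A ≥ c * R A := by
  refine ⟨32 * n + 4, by positivity, rfl, ?_⟩
  intro d A hA
  set A' : ℕ → Matrix (Fin d) (Fin d) ℂ := fun j => if h : j < n then A ⟨j, h⟩ else 0 with hA'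
  have hval : ∀ j : Fin n, A' j = A j := by intro j; simp [hA']
  have hpsd : ∀ j, (A' j).PosSemidef := by
    intro j
    simp only [hA']
    split_ifs with h
    · exact hA _
    · exact PosSemidef.zero
  set W : ℝ := ∑ j : Fin n, rtr (A j) with hWdef
  have hW : 0 ≤ W := Finset.sum_nonneg (fun j _ => rtr_nonneg (hA j))
  have hAW : ∀ j i, (hpsd j).1.eigenvalues i ≤ W := by
    intro j i
    have h1 : (hpsd j).1.eigenvalues i ≤ rtr (A' j) := by
      have h2 : rtr (A' j) = ∑ i, (hpsd j).1.eigenvalues i := by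
        have := F_trace (hpsd j).1 (fun x => x)
        rwa [F_id] at this
      rw [h2]
      exact Finset.single_le_sum (fun k _ => (hpsd j).eigenvalues_nonneg k) (Finset.mem_univ i)
    refine h1.trans ?_
    by_cases h : j < n
    · have h3 : A' j = A ⟨j, h⟩ := by simp [hA', h]
      rw [h3, hWdef]
      exact Finset.single_le_sum (f := fun j => rtr (A j)) (fun k _ => rtr_nonneg (hA k))
        (Finset.mem_univ (⟨j, h⟩ : Fin n))
    · have h3 : A' j = 0 := by simp [hA', h]
      rw [h3, rtr_zero]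
      exact hW
  have hHp : (∑ j, A j ^ 2).PosSemidef := by
    apply sum_psd
    intro j _
    have := posSemidef_conjTranspose_mul_self (A j)
    rw [(hA j).1.eq] at this
    rwa [pow_two]
  have hHeq : (∑ j, A j ^ 2) = ∑ j ∈ Finset.range n, A' j * A' j := by
    rw [← Fin.sum_univ_eq_sum_range (fun j => A' j * A' j)]
    apply Finset.sum_congr rfl
    intro j _
    rw [hval, pow_two]
  have key := main_ineq hpsd hW (n := n) (by omega) hAW hHeq hHp
  have e1 : ∑ j ∈ Finset.range n, rtr (A' j) = ∑ j, rtr (A j) := by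
    rw [← Fin.sum_univ_eq_sum_range (fun j => rtr (A' j))]
    exact Finset.sum_congr rfl (fun j _ => by rw [hval])
  have e2 : ∑ j ∈ Finset.range n, ∑ k ∈ Finset.range n, (if j = k then 0 else mm (A' j) (A' k)) =
      ∑ j : Fin n, ∑ k : Fin n, (if j = k then 0 else mm (A j) (A k)) := by
    rw [← Fin.sum_univ_eq_sum_range
      (fun j => ∑ k ∈ Finset.range n, (if j = k then 0 else mm (A' j) (A' k)))]
    apply Finset.sum_congr rfl
    intro j _
    rw [← Fin.sum_univ_eq_sum_range (fun k => if (j : ℕ) = k then 0 else mm (A' j) (A' k))]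
    apply Finset.sum_congr rfl
    intro k _
    rw [hval, hval]
    simp only [Fin.ext_iff]
  have e3 : ∑ j : Fin n, ∑ k : Fin n, (if j = k then 0 else mm (A j) (A k)) =
      2 * ∑ p : Fin n × Fin n with p.1 < p.2, mm (A p.1) (A p.2) := by
    have h1 : ∑ j : Fin n, ∑ k : Fin n, (if j = k then 0 else mm (A j) (A k)) =
        ∑ p : Fin n × Fin n, ((if p.1 < p.2 then mm (A p.1) (A p.2) else 0) +
          (if p.2 < p.1 then mm (A p.1) (A p.2) else 0)) := by
      rw [← Finset.univ_product_univ, Finset.sum_product]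
      apply Finset.sum_congr rfl; intro j _
      apply Finset.sum_congr rfl; intro k _
      rcases lt_trichotomy j k with h | h | h
      · simp [h, ne_of_lt h, not_lt_of_gt h]
      · simp [h]
      · simp [h, ne_of_gt h, not_lt_of_gt h]
    have h2 : ∑ p : Fin n × Fin n, (if p.2 < p.1 then mm (A p.1) (A p.2) else 0) =
        ∑ p : Fin n × Fin n, (if p.1 < p.2 then mm (A p.1) (A p.2) else 0) := by
      apply Fintype.sum_equiv (Equiv.prodComm (Fin n) (Fin n))
      intro p
      simp only [Equiv.prodComm_apply, Prod.fst_swap, Prod.snd_swap]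
      rw [mm_symm]
    rw [h1, Finset.sum_add_distrib, h2, Finset.sum_filter]
    ring
  have e4 : R A = -2 * ∑ p : Fin n × Fin n with p.1 < p.2, mm (A p.1) (A p.2) := by
    unfold R
    rw [Finset.mul_sum]
    apply Finset.sum_congr rfl
    intro p _
    unfold mm tn rtr traceNorm
    ring
  have e5 : L A = rtr (F hHp.1 Real.sqrt) - ∑ j, rtr (A j) := by
    unfold L
    rw [sqrt_eq_F hHp]
    rfl
  rw [e1, e2, e3] at key
  rw [ge_iff_le, e5, e4]
  have e6 : (32 * (n : ℝ) + 4) * (-2 * ∑ p : Fin n × Fin n with p.1 < p.2, mm (A p.1) (A p.2)) =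
      -((2 + 8 * (2 * (n : ℝ))) * (2 * (2 * ∑ p : Fin n × Fin n with p.1 < p.2,
        mm (A p.1) (A p.2)))) := by ring
  rw [e6]
  linarith

end Pool.Agent.Results.MP_ebd556_mp.MultivariateTrace
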